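import Mathlib
import Pool.Agent.H8.NullFin

namespace Pool.Agent.Results.MP_def4bf_gt.NotEqual

open Filter Topology Set MeasureTheory

variable {X : Type} [AddCommGroup X] [TopologicalSpace X]

/-- Null-finite sets. -/
def NullFinite (A : Set X) : Prop :=
  ∃ x : ℕ → X, Tendsto x atTop (𝓝 0) ∧ ∀ y : X, {n | y + x n ∈ A}.Finite

/-- Borel Haar-null sets. -/
def HaarNull (B : Set X) : Prop :=
  MeasurableSet[borel X] B ∧ ∃ μ : @Measure X (borel X), IsProbabilityMeasure μ ∧
    ∀ x : X, μ ((fun b => b + x) '' B) = 0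

/-- Borel Haar-meager sets. -/
def HaarMeager (B : Set X) : Prop :=
  MeasurableSet[borel X] B ∧ ∃ (K : Type) (_ : MetricSpace K) (f : K → X),
    Nonempty K ∧ CompactSpace K ∧ Continuous f ∧
      ∀ x : X, IsMeagre (f ⁻¹' ((fun b => b + x) '' B))

lemma img (x : ∀ n : ℕ, ZMod (n + 2)) :
    (fun b => b + x) '' {y : ∀ n : ℕ, ZMod (n + 2) | ∀ n, y n ≠ 0} =
      (fun b => -x + b) ⁻¹' {y : ∀ n : ℕ, ZMod (n + 2) | ∀ n, y n ≠ 0} := by
  ext y
  constructor
  · rintro ⟨b, hb, rfl⟩
    simpa using hb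
  · intro h
    exact ⟨-x + y, h, by simp⟩

lemma closedA : IsClosed {y : ∀ n : ℕ, ZMod (n + 2) | ∀ n, y n ≠ 0} := by
  have h : {y : ∀ n : ℕ, ZMod (n + 2) | ∀ n, y n ≠ 0} =
      ⋂ n, (fun y : ∀ n : ℕ, ZMod (n + 2) => y n) ⁻¹' {a : ZMod (n + 2) | a ≠ 0} := by
    ext y; simp
  rw [h]
  exact isClosed_iInter fun n => IsClosed.preimage (by fun_prop) (isClosed_discrete _)

/-- Some abelian Polish group contains a set that lies in a Borel Haar-null set and in a Borel
Haar-meager set but is not covered by countably many Borel null-finite sets. -/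
theorem result : ∃ (X : Type) (_ : AddCommGroup X) (_ : TopologicalSpace X),
    IsTopologicalAddGroup X ∧ PolishSpace X ∧ ∃ A : Set X,
      (∃ B, HaarNull B ∧ A ⊆ B) ∧ (∃ B, HaarMeager B ∧ A ⊆ B) ∧
      ¬ ∃ B : ℕ → Set X, (∀ k, MeasurableSet[borel X] (B k) ∧ NullFinite (B k)) ∧
        A ⊆ ⋃ k, B k := by
  have hb : (MeasurableSpace.pi : MeasurableSpace (∀ n : ℕ, ZMod (n + 2))) = borel _ :=
    BorelSpace.measurable_eq
  have hm : MeasurableSet[borel (∀ n : ℕ, ZMod (n + 2))]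
      {y : ∀ n : ℕ, ZMod (n + 2) | ∀ n, y n ≠ 0} := by
    rw [← hb]
    exact closedA.measurableSet
  refine ⟨∀ n : ℕ, ZMod (n + 2), inferInstance, inferInstance, inferInstance, inferInstance,
    {y | ∀ n, y n ≠ 0}, ⟨_, ⟨hm, ?_⟩, subset_rfl⟩, ⟨_, ⟨hm, ?_⟩, subset_rfl⟩, ?_⟩
  · rw [← hb]
    refine ⟨Pool.Agent.H8.NullFin.haar, inferInstance, fun x => ?_⟩
    rw [img, measure_preimage_add]
    exact Pool.Agent.H8.NullFin.haar_null
  · refine ⟨∀ n : ℕ, ZMod (n + 2), TopologicalSpace.metrizableSpaceMetric _, id, inferInstance,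
      inferInstance, continuous_id, fun x => ?_⟩
    rw [preimage_id, img]
    have hc := closedA.preimage (show Continuous fun b : ∀ n : ℕ, ZMod (n + 2) => -x + b by
      fun_prop)
    refine IsNowhereDense.isMeagre ?_
    rw [hc.isNowhereDense_iff, eq_empty_iff_forall_notMem]
    intro y hy
    have h1 : Tendsto (fun N => Function.update y N (x N)) atTop (𝓝 y) := by
      refine tendsto_pi_nhds.2 fun n => tendsto_const_nhds.congr' ?_
      filter_upwards [eventually_gt_atTop n] with N hN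
      rw [Function.update_of_ne hN.ne]
    obtain ⟨N, hN⟩ := (h1.eventually (mem_interior_iff_mem_nhds.1 hy)).exists
    apply hN N
    simp
  · rintro ⟨B, hB, hsub⟩
    choose x hx hfin using fun k => (hB k).2
    exact Pool.Agent.H8.NullFin.core (G := fun n => ZMod (n + 2))
      (fun n => (Nat.card_zmod (n + 2)).ge) B (fun k => (hB k).1) x hx hfin hsub

end Pool.Agent.Results.MP_def4bf_gt.NotEqual
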